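import Mathlib

set_option autoImplicit false
open Filter Topology Finset Complex
open scoped InnerProductSpace ComplexConjugate

namespace Pool.Agent.H.MP_4ccfbf_an

variable {H : Type} [NormedAddCommGroup H] [InnerProductSpace ℂ H] [CompleteSpace H]

/-- the operator `K⁻¹ - 1` on the range of `K` -/
noncomputable def opA (K : H →L[ℂ] H) (hK : Function.Injective K) : H →ₗ.[ℂ] H where
  domain := LinearMap.range (K : H →ₗ[ℂ] H)
  toFun := (LinearMap.id - (K : H →ₗ[ℂ] H)).comp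
    (LinearEquiv.ofInjective (K : H →ₗ[ℂ] H) hK).symm.toLinearMap

omit [CompleteSpace H] in
lemma opA_apply (K : H →L[ℂ] H) (hK : Function.Injective K) (x : H) (h : K x ∈ (opA K hK).domain) :
    opA K hK ⟨K x, h⟩ = x - K x := by
  have : (LinearEquiv.ofInjective (K : H →ₗ[ℂ] H) hK).symm ⟨K x, h⟩ = x := by
    rw [LinearEquiv.symm_apply_eq]; rfl
  show (LinearMap.id - (K : H →ₗ[ℂ] H) : H →ₗ[ℂ] H)
    ((LinearEquiv.ofInjective (K : H →ₗ[ℂ] H) hK).symm ⟨K x, h⟩) = _
  rw [this]; rfl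

lemma opA_sa (K : H →L[ℂ] H) (hK : Function.Injective K) (hs : ∀ x y, ⟪K x, y⟫_ℂ = ⟪x, K y⟫_ℂ)
    (hd : Dense ((opA K hK).domain : Set H)) : IsSelfAdjoint (opA K hK) := by
  rw [LinearPMap.isSelfAdjoint_def]
  have hf : (opA K hK).IsFormalAdjoint (opA K hK) := by
    rintro ⟨_, x, rfl⟩ ⟨_, y, rfl⟩
    have a := opA_apply K hK x ⟨x, rfl⟩
    have b := opA_apply K hK y ⟨y, rfl⟩
    refine (congrArg (⟪·, K y⟫_ℂ) a).trans (Eq.trans ?_ (congrArg (⟪K x, ·⟫_ℂ) b).symm)
    simp only [inner_sub_left, inner_sub_right, hs x y]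
  have hle := hf.le_adjoint hd
  refine (LinearPMap.eq_of_le_of_domain_eq hle (le_antisymm hle.1 fun y hy => ?_)).symm
  refine ⟨(opA K hK).adjoint ⟨y, hy⟩ + y, ext_inner_right ℂ fun w => ?_⟩
  have := LinearPMap.adjoint_isFormalAdjoint hd ⟨y, hy⟩ ⟨K w, w, rfl⟩
  rw [opA_apply K hK w ⟨w, rfl⟩] at this
  show ⟪K _, w⟫_ℂ = _
  rw [hs, inner_add_left, this, inner_sub_right]
  ring

variable {ι : Type} (b : HilbertBasis ι ℂ H)

omit [CompleteSpace H] in
lemma bext {x y : H} (h : ∀ i, ⟪b i, x⟫_ℂ = ⟪b i, y⟫_ℂ) : x = y :=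
  b.repr.injective (lp.ext (funext fun i => by rw [b.repr_apply_apply, b.repr_apply_apply, h]))

omit [CompleteSpace H] in
lemma parseval (x : H) : HasSum (fun i => ‖⟪b i, x⟫_ℂ‖ ^ 2) (‖x‖ ^ 2) := by
  have := Complex.reCLM.hasSum (b.hasSum_inner_mul_inner x x)
  convert this using 1
  · funext i
    rw [← inner_conj_symm x (b i), Complex.conj_mul']
    simp [← Complex.ofReal_pow]
  · simp [← Complex.ofReal_pow]

lemma exists_K (c : ι → ℝ) (hc : Summable c) : ∃ K : H →L[ℂ] H, IsCompactOperator K ∧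
    ∀ i x, ⟪b i, K x⟫_ℂ = c i * ⟪b i, x⟫_ℂ := by
  classical
  let P : ι → H →L[ℂ] H := fun i => (c i : ℂ) • InnerProductSpace.rankOne ℂ (b i) (b i)
  have hs : Summable P := by
    refine Summable.of_norm_bounded hc.abs fun i => ?_
    simp [P, norm_smul, b.orthonormal.1 i]
  refine ⟨∑' i, P i, isCompactOperator_of_tendsto hs.hasSum (Eventually.of_forall fun s => ?_),
    fun j x => ?_⟩
  · induction s using Finset.induction_on with
    | empty => simpa using isCompactOperator_zero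
    | insert i s hi ih =>
      rw [sum_insert hi]
      refine IsCompactOperator.add (IsCompactOperator.smul ?_ _) ih
      exact (isCompactOperator_of_locallyCompactSpace_dom (innerSL ℂ (b i))).clm_comp
        (ContinuousLinearMap.toSpanSingleton ℂ (b i))
  · have h1 := ((innerSL ℂ (b j)).comp (ContinuousLinearMap.apply ℂ H x)).hasSum hs.hasSum
    refine h1.unique ?_
    convert hasSum_single j ?_ using 1
    · simp [P, b.orthonormal.1 j]
    · intro i hi
      simp [P, b.orthonormal.2 hi.symm]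

lemma exists_B (σ : ι → ι) (hσ : Function.Involutive σ) : ∃ B : H →L[ℂ] H, ‖B‖ ≤ 2 ∧
    ∀ i, B (b i) = b i + b (σ i) := by
  classical
  have hsp : ⊤ ≤ (Submodule.span ℂ (Set.range (b ∘ σ))).topologicalClosure := by
    rw [hσ.surjective.range_comp, b.dense_span]
  let b' := HilbertBasis.mk (b.orthonormal.comp σ hσ.injective) hsp
  let S : H ≃ₗᵢ[ℂ] H := b.repr.trans b'.repr.symm
  refine ⟨ContinuousLinearMap.id ℂ H + S.toLinearIsometry.toContinuousLinearMap, ?_, fun i => ?_⟩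
  · refine (norm_add_le _ _).trans ?_
    linarith [ContinuousLinearMap.norm_id_le (𝕜 := ℂ) (E := H),
      S.toLinearIsometry.norm_toContinuousLinearMap_le]
  · have : S (b i) = b (σ i) := by
      simp only [S, LinearIsometryEquiv.trans_apply, b.repr_self, b'.repr_symm_single]
      simp [b']
    simp [this]

lemma ode {f : ℝ → ℂ} {c : ℂ} (h : ∀ t, HasDerivAt f (c * f t) t) (t : ℝ) :
    f t = cexp (c * t) * f 0 := by
  have h1 : ∀ t : ℝ, HasDerivAt (fun s : ℝ => cexp (-c * s) * f s) 0 t := fun t => by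
    have a : HasDerivAt (fun s : ℝ => cexp (-c * s)) (cexp (-c * t) * (-c * 1)) t :=
      ((Complex.ofRealCLM.hasDerivAt (x := t)).const_mul (-c)).cexp
    exact (a.mul (h t)).congr_deriv (by ring)
  have h2 := is_const_of_deriv_eq_zero (fun t => (h1 t).differentiableAt)
    (fun t => (h1 t).deriv) t 0
  simp only [ofReal_zero, mul_zero, Complex.exp_zero, one_mul] at h2
  rw [← h2, ← mul_assoc, ← Complex.exp_add]
  simp

lemma two_modes (p q : ℂ) (l e : ℝ) (he : e = 1 ∨ e = -1) :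
    2 * Real.pi * ‖p‖ ^ 2 ≤ ∫ t in (0 : ℝ)..(2 * Real.pi),
      ‖cexp (-I * l * t) * p + cexp (-I * (l + e : ℝ) * t) * q‖ ^ 2 := by
  have h0 : ∫ t in (0 : ℝ)..(2 * Real.pi), cexp (-I * e * t) = 0 := by
    rw [integral_exp_mul_complex (by rcases he with rfl | rfl <;> simp)]
    have : cexp (-I * e * (2 * Real.pi : ℝ)) = 1 := by
      rw [Complex.exp_eq_one_iff]
      rcases he with rfl | rfl
      · exact ⟨-1, by push_cast; ring⟩
      · exact ⟨1, by push_cast; ring⟩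
    rw [this]; simp
  have h1 : ∫ t in (0 : ℝ)..(2 * Real.pi),
      (‖p‖ ^ 2 + Complex.reCLM (2 * (conj p * q) * cexp (-I * e * t))) = 2 * Real.pi * ‖p‖ ^ 2 := by
    rw [intervalIntegral.integral_add (by simp) (Continuous.intervalIntegrable (by fun_prop) _ _),
      Complex.reCLM.intervalIntegral_comp_comm (Continuous.intervalIntegrable (by fun_prop) _ _),
      intervalIntegral.integral_const_mul, h0]
    simp
  rw [← h1]
  refine intervalIntegral.integral_mono_on (by positivity)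
    (Continuous.intervalIntegrable (by fun_prop) _ _)
    (Continuous.intervalIntegrable (by fun_prop) _ _) fun t _ => ?_
  have h2 : cexp (-I * l * t) * p + cexp (-I * (l + e : ℝ) * t) * q =
      cexp (I * (-(l * t) : ℝ)) * (p + cexp (-I * e * t) * q) := by
    rw [mul_add, ← mul_assoc, ← Complex.exp_add]
    congr 3 <;> push_cast <;> ring
  rw [h2, norm_mul, Complex.norm_exp_I_mul_ofReal, one_mul]
  generalize cexp (-I * e * t) = w
  rw [Complex.sq_norm, Complex.sq_norm, Complex.normSq_add]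
  have := Complex.normSq_nonneg (w * q)
  simp only [reCLM_apply, mul_re, mul_im, conj_re, conj_im, re_ofNat, im_ofNat]
  nlinarith

lemma params (k : ℝ) (hk : 128 ≤ k) : ∃ (a : ℝ) (z μ : ℂ), z ^ 2 + a = μ ∧
    μ * (μ + 1) + 2 * z * (2 * μ + 1) = 0 ∧ k / 128 ≤ a ∧ -(1 / 2) ≤ z.re * k ∧ 1 ≤ ‖z‖ ∧
      ‖z‖ ^ 2 ≤ k := by
  have hk0 : 0 < k := by linarith
  have hd : 0 < k ^ 2 - 1 / 16 := by nlinarith
  obtain ⟨x, hx⟩ : ∃ x : ℝ, -2 * x * (k ^ 2 - 1 / 16) = 1 :=
    ⟨-1 / (2 * (k ^ 2 - 1 / 16)), by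
      generalize k ^ 2 - 1 / 16 = d at hd
      field_simp⟩
  have hx0 : x < 0 := by nlinarith
  have hx1 : -1 ≤ x * k ^ 2 := by nlinarith
  have hx2 : x ^ 2 * k ≤ 1 / 32 := by
    have h1 : (x * k ^ 2) ^ 2 ≤ 1 := by
      have : x * k ^ 2 ≤ 0 := by nlinarith
      nlinarith
    have h2 : 32 ≤ k ^ 3 := by nlinarith
    have h3 : 0 ≤ x ^ 2 * k := by positivity
    nlinarith
  obtain ⟨y, hy⟩ : ∃ y : ℝ, 16 * k * (x ^ 2 + y ^ 2) = 1 := by
    refine ⟨√(1 / (16 * k) - x ^ 2), ?_⟩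
    rw [Real.sq_sqrt]
    · field_simp; ring
    · rw [sub_nonneg, le_div_iff₀ (by positivity)]; linarith
  have hs : x * (k - 1 / 4) * (-2 * (k + 1 / 4)) = 1 := by linarith
  set s := x * (k - 1 / 4) with hs'
  set r := -(y * (k + 1 / 4)) with hr'
  have hs0 : s < 0 := by nlinarith
  have hs1 : -(1 / 2) ≤ s * k := by nlinarith
  have hs2 : s ^ 2 ≤ 1 := by nlinarith
  have hy1 : 1 / 32 ≤ y ^ 2 * k := by nlinarith
  have hy2 : y ^ 2 * k ≤ 1 / 16 := by nlinarith [sq_nonneg x]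
  have hr1 : k / 32 ≤ r ^ 2 := by
    have : y ^ 2 * k ^ 2 ≤ r ^ 2 := by rw [hr']; nlinarith [sq_nonneg y]
    nlinarith
  have hr2 : r ^ 2 ≤ k / 4 := by
    have : r ^ 2 ≤ y ^ 2 * (2 * k) ^ 2 := by
      rw [hr', neg_sq, mul_pow]
      exact mul_le_mul_of_nonneg_left (by nlinarith) (sq_nonneg y)
    nlinarith
  have hx3 : -1 ≤ x := by nlinarith
  have hn : ‖(⟨s, r⟩ : ℂ)‖ ^ 2 = s ^ 2 + r ^ 2 := by
    rw [Complex.sq_norm, Complex.normSq_apply]; ring
  refine ⟨-1 / 2 + x - s ^ 2 + r ^ 2, ⟨s, r⟩, ⟨-1 / 2 + x, y⟩, ?_, ?_, by linarith, hs1, ?_, ?_⟩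
  · refine Complex.ext ?_ ?_
    · simp only [sq, add_re, mul_re, ofReal_re]; ring
    · simp only [sq, add_im, mul_im, ofReal_im]
      rw [hr']
      linear_combination y * hs
  · refine Complex.ext ?_ ?_
    · simp only [add_re, mul_re, add_im, mul_im, one_re, one_im, re_ofNat, im_ofNat, zero_re]
      rw [hr', hs']
      linear_combination (1 / 4) * hy
    · simp only [add_re, mul_re, add_im, mul_im, one_re, one_im, re_ofNat, im_ofNat, zero_im]
      rw [hr', hs']
      ring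
  · refine (one_le_sq_iff₀ (norm_nonneg _)).1 ?_
    rw [hn]; nlinarith [sq_nonneg s]
  · rw [hn]; linarith

theorem model (b : HilbertBasis (ℕ × Bool) ℂ H) : ∃ (A : H →ₗ.[ℂ] H) (B : H →L[ℂ] H), IsSelfAdjoint A ∧
    (∀ u : A.domain, 0 ≤ (⟪A u, (u : H)⟫_ℂ).re) ∧
    (∃ R : H →L[ℂ] H, IsCompactOperator R ∧
      ∀ x, ∃ h : R x ∈ A.domain, A ⟨R x, h⟩ + R x = x) ∧
    (∀ u : ℝ → H, Continuous u → (∀ (φ : A.domain) (t : ℝ),
      HasDerivAt (fun s => ⟪(φ : H), u s⟫_ℂ) (-I * ⟪A φ, u t⟫_ℂ) t) →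
      ‖u 0‖ ^ 2 ≤ 1 * ∫ t in (0 : ℝ)..(2 * Real.pi), ‖B.adjoint (u t)‖ ^ 2) ∧
    ‖B‖ ≤ 2 ∧ ∀ n : ℕ, ∃ k : ℝ, n < k ∧ ∃ (w : A.domain) (z : ℂ), w ≠ 0 ∧
      A w = -(z ^ 2 • (w : H)) - z • B (B.adjoint w) ∧ -(1 / 2) ≤ z.re * k ∧ 1 ≤ ‖z‖ ∧
        ‖z‖ ^ 2 ≤ k := by
  classical
  have hk : ∀ n : ℕ, (128 : ℝ) ≤ 128 * ((n : ℝ) + 1) ^ 2 := fun n => by
    nlinarith [Nat.cast_nonneg (α := ℝ) n]
  choose a z μ h1 h2 h3 h4 h5 h6 using fun n => params _ (hk n)
  have ha : ∀ n : ℕ, ((n : ℝ) + 1) ^ 2 ≤ a n := fun n => by linarith [h3 n]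
  let l : ℕ × Bool → ℝ := fun i => if i.2 then a i.1 + 1 else a i.1
  have hl : ∀ i, ((i.1 : ℝ) + 1) ^ 2 ≤ l i := fun i => by
    simp only [l]; split_ifs <;> linarith [ha i.1]
  have hl0 : ∀ i, 0 < l i + 1 := fun i => by nlinarith [hl i]
  have hsum : Summable fun i => 1 / (l i + 1) := by
    have s1 : Summable fun n : ℕ => 1 / ((n : ℝ) + 1) ^ 2 := by
      have := (summable_nat_add_iff 1).2 (Real.summable_one_div_nat_pow.2 one_lt_two)
      simpa using this
    have s2 : Summable fun i : ℕ × Bool => 1 / ((i.1 : ℝ) + 1) ^ 2 * 1 :=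
      summable_mul_of_summable_norm (f := fun n : ℕ => 1 / ((n : ℝ) + 1) ^ 2)
        (g := fun _ : Bool => (1 : ℝ)) s1.norm Summable.of_finite
    refine Summable.of_nonneg_of_le (fun i => (one_div_pos.2 (hl0 i)).le) (fun i => ?_) s2
    rw [mul_one]
    exact one_div_le_one_div_of_le (by positivity) (by linarith [hl i])
  obtain ⟨K, hKc, hK⟩ := exists_K b _ hsum
  have hne : ∀ i, ((l i : ℂ) + 1) ≠ 0 := fun i => by exact_mod_cast (hl0 i).ne'
  have hinj : Function.Injective K := fun x y h => bext b fun i => by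
    have := hK i x
    rw [h, hK] at this
    push_cast at this
    exact (mul_left_cancel₀ (one_div_ne_zero (hne i)) this).symm
  have hKs : ∀ x y, ⟪K x, y⟫_ℂ = ⟪x, K y⟫_ℂ := fun x y => by
    refine (b.hasSum_inner_mul_inner (K x) y).unique ?_
    convert b.hasSum_inner_mul_inner x (K y) using 2 with i
    rw [← inner_conj_symm (K x), hK, hK, ← inner_conj_symm x]
    simp only [map_mul, conj_ofReal]
    ring
  have hKb : ∀ i, K (((l i : ℂ) + 1) • b i) = b i := fun i => bext b fun j => by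
    rw [hK, inner_smul_right]
    by_cases h : j = i
    · subst h
      have := hne j
      push_cast
      field_simp
    · rw [b.orthonormal.2 h]; simp
  have hmem : ∀ i, b i ∈ (opA K hinj).domain := fun i => ⟨_, hKb i⟩
  have hAb : ∀ i, opA K hinj ⟨b i, hmem i⟩ = (l i : ℂ) • b i := fun i => by
    have := opA_apply K hinj (((l i : ℂ) + 1) • b i) ⟨_, rfl⟩
    simp only [hKb] at this
    rw [this, add_smul, one_smul, add_sub_cancel_right]
  have hd : Dense ((opA K hinj).domain : Set H) := by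
    have h : Dense (Submodule.span ℂ (Set.range b) : Set H) :=
      Submodule.dense_iff_topologicalClosure_eq_top.2 b.dense_span
    exact h.mono (Submodule.span_le.2 (by rintro _ ⟨i, rfl⟩; exact hmem i))
  let σ : ℕ × Bool → ℕ × Bool := fun i => (i.1, !i.2)
  have hσ : Function.Involutive σ := fun i => by simp [σ]
  obtain ⟨B, hB, hBb⟩ := exists_B b σ hσ
  have hB' : ∀ i x, ⟪b i, B.adjoint x⟫_ℂ = ⟪b i, x⟫_ℂ + ⟪b (σ i), x⟫_ℂ := fun i x => by
    rw [ContinuousLinearMap.adjoint_inner_right, hBb, inner_add_left]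
  have hB'' : ∀ i, B.adjoint (b i) = b i + b (σ i) := fun i => bext b fun j => by
    rw [hB', inner_add_right, orthonormal_iff_ite.1 b.orthonormal (σ j),
      orthonormal_iff_ite.1 b.orthonormal j (σ i)]
    congr 1
    exact if_congr ⟨fun h => by rw [← h, hσ], fun h => by rw [h, hσ]⟩ rfl rfl
  refine ⟨opA K hinj, B, opA_sa K hinj hKs hd, ?_,
    ⟨K, hKc, fun x => ⟨⟨x, rfl⟩, by rw [opA_apply, sub_add_cancel]⟩⟩, ?_, hB, fun n => ?_⟩
  · rintro ⟨_, x, rfl⟩
    have e := opA_apply K hinj x ⟨x, rfl⟩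
    refine le_of_le_of_eq ?_ (congrArg (fun y => (⟪y, K x⟫_ℂ).re) e).symm
    refine (Complex.reCLM.hasSum (b.hasSum_inner_mul_inner (x - K x) (K x))).nonneg fun i => ?_
    rw [← inner_conj_symm (x - K x), inner_sub_right, hK]
    generalize ⟪b i, x⟫_ℂ = y
    have c0 : 0 < 1 / (l i + 1) := one_div_pos.2 (hl0 i)
    have c1 : 1 / (l i + 1) ≤ 1 := by
      rw [div_le_one (hl0 i)]; nlinarith [hl i]
    generalize 1 / (l i + 1) = c at c0 c1
    simp only [reCLM_apply, mul_re, mul_im, conj_re, conj_im, sub_re, sub_im, ofReal_re, ofReal_im]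
    nlinarith [mul_nonneg (mul_nonneg c0.le (sub_nonneg.2 c1))
      (add_nonneg (mul_self_nonneg y.re) (mul_self_nonneg y.im))]
  · intro u hu h
    have hf : ∀ i (t : ℝ), ⟪b i, u t⟫_ℂ = cexp (-I * l i * t) * ⟪b i, u 0⟫_ℂ := fun i =>
      ode (f := fun t => ⟪b i, u t⟫_ℂ) fun t => by
        have := h ⟨b i, hmem i⟩ t
        rwa [hAb, inner_smul_left, conj_ofReal, ← mul_assoc] at this
    have hc : Continuous fun t => B.adjoint (u t) := B.adjoint.continuous.comp hu
    have key : 2 * Real.pi * ‖u 0‖ ^ 2 ≤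
        ∫ t in (0 : ℝ)..(2 * Real.pi), ‖B.adjoint (u t)‖ ^ 2 := by
      refine hasSum_le_of_sum_le ((parseval b (u 0)).mul_left _) fun s => ?_
      have hi : ∀ i, Continuous fun t => ‖⟪b i, B.adjoint (u t)⟫_ℂ‖ ^ 2 := fun i =>
        (continuous_const.inner hc).norm.pow 2
      calc _ ≤ ∑ i ∈ s, ∫ t in (0 : ℝ)..(2 * Real.pi), ‖⟪b i, B.adjoint (u t)⟫_ℂ‖ ^ 2 := by
            refine sum_le_sum fun i _ => ?_
            obtain ⟨e, he, hle⟩ : ∃ e : ℝ, (e = 1 ∨ e = -1) ∧ l (σ i) = l i + e := by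
              obtain ⟨n, _ | _⟩ := i
              · exact ⟨1, Or.inl rfl, by simp [l, σ]⟩
              · exact ⟨-1, Or.inr rfl, by simp [l, σ]⟩
            refine (two_modes _ ⟪b (σ i), u 0⟫_ℂ (l i) e he).trans (le_of_eq ?_)
            congr 1
            funext t
            rw [hB', hf i t, hf (σ i) t, hle]
        _ = ∫ t in (0 : ℝ)..(2 * Real.pi), ∑ i ∈ s, ‖⟪b i, B.adjoint (u t)⟫_ℂ‖ ^ 2 :=
            (intervalIntegral.integral_finsetSum fun i _ => (hi i).intervalIntegrable _ _).symm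
        _ ≤ _ := intervalIntegral.integral_mono_on (by positivity)
            ((continuous_finsetSum _ fun i _ => hi i).intervalIntegrable _ _)
            ((hc.norm.pow 2).intervalIntegrable _ _)
            fun t _ => b.orthonormal.sum_inner_products_le _
    nlinarith [Real.pi_gt_three, sq_nonneg ‖u 0‖]
  · refine ⟨_, by nlinarith [Nat.cast_nonneg (α := ℝ) n],
      (μ n + 1) • ⟨b (n, false), hmem _⟩ + μ n • ⟨b (n, true), hmem _⟩, z n, fun h0 => ?_, ?_,
      h4 n, h5 n, h6 n⟩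
    · have h7 : (μ n + 1) • b (n, false) + μ n • b (n, true) = 0 := congrArg Subtype.val h0
      have e1 := congrArg (⟪b (n, false), ·⟫_ℂ) h7
      have e2 := congrArg (⟪b (n, true), ·⟫_ℂ) h7
      simp only [inner_add_right, inner_smul_right, orthonormal_iff_ite.1 b.orthonormal,
        inner_zero_right] at e1 e2
      simp at e1 e2
      simp [e2] at e1
    · rw [LinearPMap.map_add, LinearPMap.map_smul, LinearPMap.map_smul, hAb, hAb]
      simp only [Submodule.coe_add, Submodule.coe_smul, map_add, map_smul, hB'', hBb, hσ _]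
      simp only [l, σ, Bool.not_false, Bool.not_true, if_true, Bool.false_eq_true, if_false]
      have e1 := h1 n
      have e2 := h2 n
      push_cast
      match_scalars
      · linear_combination (μ n + 1) * e1 + e2
      · linear_combination μ n * e1 + e2

end Pool.Agent.H.MP_4ccfbf_an
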